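import Pool.Agent.H79.QG.CThree
import Pool.Agent.H53.RQ.Defs

/-!
Part (C3) in the terms of `H53/RQ/Defs`.
-/

set_option autoImplicit false

open Finset

namespace Pool.Agent.H79.QG

theorem cc_eq_coef {q : ℝ} (hq : 0 < q) (hq1 : q ≠ 1) (m a b : ℕ) (ha : a < m + 2)
    (hb : b < m + 2 - a) :
    q ^ ((m + 2).choose 2) * (∏ i ∈ range (m + 1), (1 + q ^ (i + 1))) *
      H30.WF.cc q (m + 2) 1 b (m + 2 - a) = Pool.H53.RQ.coef q (m + 1) a b := by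
  obtain ⟨l, hl⟩ : ∃ l, m + 1 = a + b + l := ⟨m + 1 - a - b, by omega⟩
  have h := cc_eq_Cab hq hq1 a b l
  rw [← hl] at h
  have e : b + l + 1 = m + 2 - a := by omega
  rw [e] at h
  exact h

/-- the double sum over the runs `[i, j)`, with the factor, is the double sum of `partC` -/
theorem sum_cc_eq {q : ℝ} (hq : 0 < q) (hq1 : q ≠ 1) (m : ℕ) (g : ℕ → ℕ → ℝ) :
    q ^ ((m + 2).choose 2) * (∏ i ∈ range (m + 1), (1 + q ^ (i + 1))) *
      ∑ i ∈ range (m + 2), ∑ j ∈ Ioc i (m + 2), H30.WF.cc q (m + 2) 1 i j * g i j =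
    ∑ a ∈ range (m + 2), ∑ b ∈ range (m + 2 - a),
      Pool.H53.RQ.coef q (m + 1) a b * g b (m + 2 - a) := by
  rw [mul_sum]
  simp_rw [mul_sum]
  rw [sum_sigma', sum_sigma']
  refine sum_nbij' (fun x => ⟨m + 2 - x.2, x.1⟩) (fun y => ⟨y.2, m + 2 - y.1⟩) ?_ ?_ ?_ ?_ ?_
  · rintro ⟨i, j⟩ h
    simp only [mem_sigma, mem_range, mem_Ioc] at h ⊢
    omega
  · rintro ⟨a, b⟩ h
    simp only [mem_sigma, mem_range, mem_Ioc] at h ⊢
    omega
  · rintro ⟨i, j⟩ h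
    simp only [mem_sigma, mem_range, mem_Ioc] at h
    have : m + 2 - (m + 2 - j) = j := by omega
    simp only [this]
  · rintro ⟨a, b⟩ h
    simp only [mem_sigma, mem_range] at h
    have : m + 2 - (m + 2 - a) = a := by omega
    simp only [this]
  · rintro ⟨i, j⟩ h
    simp only [mem_sigma, mem_range, mem_Ioc] at h
    have e : m + 2 - (m + 2 - j) = j := by omega
    have h1 := cc_eq_coef hq hq1 m (m + 2 - j) i (by omega) (by omega)
    simp only [e] at h1 ⊢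
    rw [← h1]
    ring

/-- the form with the value `g 0` subtracted -/
theorem sum_cc_sub {q : ℝ} (hq : 0 < q) (hq1 : q ≠ 1) (m : ℕ) : ∃ c0 : ℝ, ∀ g : ℝ → ℝ,
    q ^ ((m + 2).choose 2) * (∏ i ∈ range (m + 1), (1 + q ^ (i + 1))) *
      (∑ i ∈ range (m + 2), ∑ j ∈ Ioc i (m + 2),
        H30.WF.cc q (m + 2) 1 i j * (g (∑ k ∈ Ico i j, q ^ k) - g 0)) =
    (∑ a ∈ range (m + 2), ∑ b ∈ range (m + 2 - a),
      Pool.H53.RQ.coef q (m + 1) a b * g (∑ j ∈ Ico b (m + 2 - a), q ^ j)) + c0 * g 0 := by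
  refine ⟨-(∑ a ∈ range (m + 2), ∑ b ∈ range (m + 2 - a), Pool.H53.RQ.coef q (m + 1) a b), ?_⟩
  intro g
  rw [sum_cc_eq hq hq1 m (fun i j => g (∑ k ∈ Ico i j, q ^ k) - g 0)]
  simp_rw [mul_sub, sum_sub_distrib]
  rw [sub_eq_add_neg, neg_mul, sum_mul]
  simp_rw [sum_mul]

end Pool.Agent.H79.QG
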