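import Pool.Agent.H79.QG.ExtF
import Pool.Agent.H30.WF.Def

/-!
# The coefficient of a run against the interval coefficient

`cc_eq_Cab`: with `K = k + 1 = a + b + l + 1`, run `[b, b + l + 1)`,
`q^C(k+1,2) (1+q)..(1+q^k) cc q K 1 b (b+l+1) = Cab q k a b`.
-/

set_option autoImplicit false

open Finset

namespace Pool.Agent.H79.QG

/-- `(1+q)(1+q^2)..(1+q^n)` -/
noncomputable def D1 (q : ℝ) (n : ℕ) : ℝ := ∏ i ∈ range n, (1 + q ^ (i + 1))

/-- `(1-q)(1-q^2)..(1-q^n)` -/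
noncomputable def U1 (q : ℝ) (n : ℕ) : ℝ := ∏ i ∈ range n, (1 - q ^ (i + 1))

theorem D1_succ (q : ℝ) (n : ℕ) : D1 q (n + 1) = D1 q n * (1 + q ^ (n + 1)) := by
  unfold D1; rw [prod_range_succ]

theorem U1_succ (q : ℝ) (n : ℕ) : U1 q (n + 1) = U1 q n * (1 - q ^ (n + 1)) := by
  unfold U1; rw [prod_range_succ]

theorem D1_pos {q : ℝ} (hq : 0 < q) (n : ℕ) : 0 < D1 q n := by
  unfold D1; exact prod_pos fun i _ => by positivity

theorem U1_ne {q : ℝ} (hq : 0 < q) (hq1 : q ≠ 1) (n : ℕ) : U1 q n ≠ 0 := by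
  unfold U1; exact prod_ne_zero_iff.2 fun i _ => one_sub_ne hq hq1 i

/-- the products of `Cab` -/
theorem G_eq {q : ℝ} (hq : 0 < q) (m a : ℕ) :
    (∏ i ∈ range a, (1 + q ^ i / q ^ (m + a))) * q ^ (m * a + (a + 1).choose 2) * D1 q m =
      D1 q (m + a) := by
  induction a with
  | zero => simp
  | succ a ih =>
    rw [prod_range_succ']
    have e1 : ∀ i, (1 + q ^ (i + 1) / q ^ (m + (a + 1))) = 1 + q ^ i / q ^ (m + a) := by
      intro i
      rw [← add_assoc, pow_succ, pow_succ]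
      field_simp
    rw [prod_congr rfl fun i _ => e1 i]
    have e2 : m * (a + 1) + (a + 1 + 1).choose 2 = (m * a + (a + 1).choose 2) + (m + a + 1) := by
      rw [Nat.choose_succ_succ' (a + 1) 1, Nat.choose_one_right]
      ring
    rw [e2, pow_add q (m * a + (a + 1).choose 2)]
    have e3 : m + (a + 1) = m + a + 1 := by ring
    rw [e3, D1_succ, ← ih, pow_zero]
    have h : q ^ (m + a + 1) ≠ 0 := (pow_pos hq _).ne'
    field_simp
    ring

/-- the run part -/
theorem P1_eq {q : ℝ} (hq : 0 < q) (b l : ℕ) :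
    2 * (∏ k ∈ Ico b (b + l + 1), (1 * q ^ k * (1 * q ^ k + 1 * q ^ b))⁻¹) *
      (q ^ (2 * b * (l + 1) + (l + 1).choose 2) * D1 q l) = 1 := by
  have h0 : ∏ k ∈ Ico b (b + l + 1), (1 * q ^ k * (1 * q ^ k + 1 * q ^ b))⁻¹ =
      ∏ i ∈ range (l + 1), (q ^ (2 * b + i) * (1 + q ^ i))⁻¹ := by
    rw [prod_Ico_eq_prod_range, show b + l + 1 - b = l + 1 by omega]
    refine prod_congr rfl fun i _ => ?_
    congr 1
    rw [one_mul, one_mul, pow_add, pow_add, show 2 * b = b + b by ring, pow_add]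
    ring
  rw [h0]
  clear h0
  induction l with
  | zero =>
    have h : q ^ (2 * b) ≠ 0 := (pow_pos hq _).ne'
    unfold D1
    simp only [zero_add, prod_range_one, range_zero, prod_empty, add_zero, pow_zero, mul_one,
      Nat.choose_succ_self]
    field_simp
    norm_num
  | succ l ih =>
    rw [prod_range_succ, D1_succ]
    have e : 2 * b * (l + 1 + 1) + (l + 1 + 1).choose 2 =
        (2 * b * (l + 1) + (l + 1).choose 2) + (2 * b + (l + 1)) := by
      rw [Nat.choose_succ_succ' (l + 1) 1, Nat.choose_one_right]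
      ring
    rw [e, pow_add q (2 * b * (l + 1) + (l + 1).choose 2)]
    have h1 : q ^ (2 * b + (l + 1)) ≠ 0 := (pow_pos hq _).ne'
    have h2 : (1 + q ^ (l + 1)) ≠ 0 := by positivity
    calc _ = 2 * (∏ i ∈ range (l + 1), (q ^ (2 * b + i) * (1 + q ^ i))⁻¹) *
          (q ^ (2 * b * (l + 1) + (l + 1).choose 2) * D1 q l) *
          ((q ^ (2 * b + (l + 1)) * (1 + q ^ (l + 1)))⁻¹ *
            (q ^ (2 * b + (l + 1)) * (1 + q ^ (l + 1)))) := by ring
      _ = 1 := by rw [ih, inv_mul_cancel₀ (mul_ne_zero h1 h2), mul_one]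

/-- the part to the left of the run -/
theorem P2_eq {q : ℝ} (hq : 0 < q) (hq1 : q ≠ 1) (r s b : ℕ) :
    (∏ k ∈ range b, (1 * q ^ k + 1 * q ^ (r + b)) /
      (1 * q ^ k * (1 * q ^ k - 1 * q ^ b) * (1 * q ^ k + 1 * q ^ (s + b)))) *
      (D1 q r * U1 q b * D1 q (s + b) * q ^ (2 * b.choose 2)) = D1 q (r + b) * D1 q s := by
  simp only [one_mul]
  induction b with
  | zero =>
    unfold U1
    simp
  | succ b ih =>
    rw [prod_range_succ', U1_succ]
    have e1 : ∀ k, (q ^ (k + 1) + q ^ (r + (b + 1))) /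
        (q ^ (k + 1) * (q ^ (k + 1) - q ^ (b + 1)) * (q ^ (k + 1) + q ^ (s + (b + 1)))) =
        (q ^ k + q ^ (r + b)) / (q ^ k * (q ^ k - q ^ b) * (q ^ k + q ^ (s + b))) * (q ^ 2)⁻¹ := by
      intro k
      rw [← add_assoc, ← add_assoc, pow_succ, pow_succ, pow_succ, pow_succ]
      have h : (q ^ k * q * (q ^ k * q - q ^ b * q) * (q ^ k * q + q ^ (s + b) * q)) =
          (q ^ k * (q ^ k - q ^ b) * (q ^ k + q ^ (s + b))) * q ^ 3 := by ring
      have h' : q ^ k * q + q ^ (r + b) * q = (q ^ k + q ^ (r + b)) * q := by ring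
      rw [h, h', mul_div_mul_comm]
      congr 1
      field_simp
    rw [prod_congr rfl fun k _ => e1 k, prod_mul_distrib, prod_const, card_range]
    rw [← add_assoc r b 1, ← add_assoc s b 1, D1_succ, D1_succ]
    have e2 : 2 * (b + 1).choose 2 = 2 * b.choose 2 + 2 * b := by
      rw [Nat.choose_succ_succ' b 1, Nat.choose_one_right]
      ring
    rw [e2, pow_add q (2 * b.choose 2)]
    have h1 := one_sub_ne hq hq1 b
    have h2 : (1 + q ^ (s + b + 1)) ≠ 0 := by positivity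
    have h3 : q ^ (2 * b) ≠ 0 := (pow_pos hq _).ne'
    have e3 : ((q ^ 2)⁻¹) ^ b * q ^ (2 * b) = 1 := by
      rw [inv_pow, ← pow_mul, inv_mul_cancel₀ h3]
    calc _ = ((∏ k ∈ range b, (q ^ k + q ^ (r + b)) /
            (q ^ k * (q ^ k - q ^ b) * (q ^ k + q ^ (s + b)))) *
            (D1 q r * U1 q b * D1 q (s + b) * q ^ (2 * b.choose 2))) *
          (((q ^ 2)⁻¹) ^ b * q ^ (2 * b)) *
          ((q ^ 0 + q ^ (r + b + 1)) / (q ^ 0 * (q ^ 0 - q ^ (b + 1)) * (q ^ 0 + q ^ (s + b + 1))) *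
            ((1 - q ^ (b + 1)) * (1 + q ^ (s + b + 1)))) := by ring
      _ = _ := by
        rw [ih, e3, pow_zero, one_mul, mul_one]
        rw [div_mul_cancel₀ _ (mul_ne_zero h1 h2)]
        ring

/-- the part to the right of the run -/
theorem P3_eq {q : ℝ} (hq : 0 < q) (hq1 : q ≠ 1) (b l a : ℕ) :
    (∏ k ∈ Ico (b + l + 1) (b + l + 1 + a), (-(q ^ (k - b)) /
      (1 * q ^ k * (1 * q ^ (b + l + 1) - 1 * q ^ (k + 1))))) *
      (U1 q a * q ^ ((2 * b + l + 1) * a)) = (-1) ^ a := by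
  simp only [one_mul]
  have h0 : ∏ k ∈ Ico (b + l + 1) (b + l + 1 + a), (-(q ^ (k - b)) /
      (q ^ k * (q ^ (b + l + 1) - q ^ (k + 1)))) =
      ∏ i ∈ range a, (-1) / (q ^ (2 * b + l + 1) * (1 - q ^ (i + 1))) := by
    rw [prod_Ico_eq_prod_range, show b + l + 1 + a - (b + l + 1) = a by omega]
    refine prod_congr rfl fun i _ => ?_
    rw [show b + l + 1 + i - b = l + 1 + i by omega]
    have h1 := one_sub_ne hq hq1 i
    have h2 : q ^ (b + l + 1 + i) * (q ^ (b + l + 1) - q ^ (b + l + 1 + i + 1)) =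
        q ^ (l + 1 + i) * (q ^ (2 * b + l + 1) * (1 - q ^ (i + 1))) := by
      have e1 : q ^ (b + l + 1 + i + 1) = q ^ (b + l + 1) * q ^ (i + 1) := by
        rw [← pow_add]; congr 1
      have e2 : q ^ (b + l + 1 + i) = q ^ b * q ^ (l + 1 + i) := by
        rw [← pow_add]; congr 1; ring
      have e3 : q ^ (2 * b + l + 1) = q ^ b * q ^ (b + l + 1) := by
        rw [← pow_add]; congr 1; ring
      rw [e1, e2, e3]; ring
    rw [h2]
    have h3 : q ^ (l + 1 + i) ≠ 0 := (pow_pos hq _).ne'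
    have h4 : q ^ (2 * b + l + 1) ≠ 0 := (pow_pos hq _).ne'
    field_simp
  rw [h0]
  clear h0
  induction a with
  | zero => unfold U1; simp
  | succ a ih =>
    rw [prod_range_succ, U1_succ, mul_add, mul_one, pow_add q ((2 * b + l + 1) * a)]
    have h1 := one_sub_ne hq hq1 a
    have h4 : q ^ (2 * b + l + 1) ≠ 0 := (pow_pos hq _).ne'
    calc _ = ((∏ i ∈ range a, (-1) / (q ^ (2 * b + l + 1) * (1 - q ^ (i + 1)))) *
            (U1 q a * q ^ ((2 * b + l + 1) * a))) *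
          ((-1) / (q ^ (2 * b + l + 1) * (1 - q ^ (a + 1))) *
            (q ^ (2 * b + l + 1) * (1 - q ^ (a + 1)))) := by ring
      _ = _ := by
        rw [ih, div_mul_cancel₀ _ (mul_ne_zero h4 h1)]
        ring

theorem two_choose (n : ℕ) : 2 * ((n + 1).choose 2 : ℤ) = (n + 1) * n := by
  have h : 2 * (n + 1).choose 2 = (n + 1) * n := by
    have h0 : 2 ∣ (n + 1) * n := by
      rw [mul_comm]
      exact (Nat.even_mul_succ_self n).two_dvd
    rw [Nat.choose_two_right, Nat.add_sub_cancel]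
    exact Nat.mul_div_cancel' h0
  exact_mod_cast h

/-- the bookkeeping of the exponents -/
theorem expo (a b l : ℕ) :
    (a + b + l + 1).choose 2 + b + ((b + l + 1) * a + (a + 1).choose 2 +
      ((a + l + 1) * b + (b + 1).choose 2) + (l + 1)) =
    ((a + b + l) * a + b) + (a + b + l + 1) + ((2 * b * (l + 1) + (l + 1).choose 2) +
      2 * b.choose 2 + (2 * b + l + 1) * a) := by
  have h1 := two_choose (a + b + l)
  have h2 := two_choose a
  have h3 := two_choose b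
  have h4 := two_choose l
  have h5 : (2 * (b.choose 2 : ℤ)) = b * (b - 1) := by
    cases b with
    | zero => simp
    | succ b =>
      have := two_choose b
      push_cast
      linarith
  have key : (2 : ℤ) * (((a + b + l + 1).choose 2 : ℕ) + b + ((b + l + 1) * a + ((a + 1).choose 2 : ℕ) +
      ((a + l + 1) * b + ((b + 1).choose 2 : ℕ)) + (l + 1))) =
      2 * (((a + b + l) * a + b) + (a + b + l + 1) + ((2 * b * (l + 1) + ((l + 1).choose 2 : ℕ)) +
      2 * (b.choose 2 : ℕ) + (2 * b + l + 1) * a)) := by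
    push_cast at h1 ⊢
    linear_combination h1 + h2 + h3 - h4 - 2 * h5
  have key2 := mul_left_cancel₀ (two_ne_zero) key
  exact_mod_cast key2

/-- `C3` -/
theorem cc_eq_Cab {q : ℝ} (hq : 0 < q) (hq1 : q ≠ 1) (a b l : ℕ) :
    q ^ ((a + b + l + 1).choose 2) * D1 q (a + b + l) *
      H30.WF.cc q (a + b + l + 1) 1 b (b + l + 1) = Cab q (a + b + l) a b := by
  have g1 := G_eq hq (b + l + 1) a
  have g2 := G_eq hq (a + l + 1) b
  have p1 := P1_eq hq b l
  have p2 := P2_eq hq hq1 (a + l + 1) (l + 1) b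
  have p3 := P3_eq hq hq1 b l a
  have d1 := D1_succ q (a + b + l)
  have d2 := D1_succ q l
  rw [show b + l + 1 + a = a + b + l + 1 by ring] at g1 p3
  rw [show a + l + 1 + b = a + b + l + 1 by ring] at g2 p2
  rw [show l + 1 + b = b + l + 1 by ring] at p2
  have hex := expo a b l
  have hx : q ^ ((a + b + l + 1).choose 2) * q ^ b * (q ^ ((b + l + 1) * a + (a + 1).choose 2) *
      q ^ ((a + l + 1) * b + (b + 1).choose 2) * q ^ (l + 1)) =
      q ^ ((a + b + l) * a + b) * q ^ (a + b + l + 1) *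
        (q ^ (2 * b * (l + 1) + (l + 1).choose 2) * q ^ (2 * b.choose 2) *
          q ^ ((2 * b + l + 1) * a)) := by
    simp only [← pow_add]
    rw [hex]
  unfold H30.WF.cc Cab
  set A1 := ∏ i ∈ range a, (1 + q ^ i / q ^ (a + b + l + 1)) with hA1
  set A2 := ∏ i ∈ range b, (1 + q ^ i / q ^ (a + b + l + 1)) with hA2
  set R1 := ∏ k ∈ Ico b (b + l + 1), (1 * q ^ k * (1 * q ^ k + 1 * q ^ b))⁻¹ with hR1
  set R2 := ∏ k ∈ range b, (1 * q ^ k + 1 * q ^ (a + b + l + 1)) /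
      (1 * q ^ k * (1 * q ^ k - 1 * q ^ b) * (1 * q ^ k + 1 * q ^ (b + l + 1))) with hR2
  set R3 := ∏ k ∈ Ico (b + l + 1) (a + b + l + 1), (-(q ^ (k - b)) /
      (1 * q ^ k * (1 * q ^ (b + l + 1) - 1 * q ^ (k + 1)))) with hR3
  change _ = (-1) ^ a * q ^ ((a + b + l) * a + b) * (1 + q ^ (a + b) / q ^ (a + b + l + 1)) * A1 *
    A2 / ((1 + 1 / q ^ (a + b + l + 1)) * U1 q a * U1 q b)
  have hUa := U1_ne hq hq1 a
  have hUb := U1_ne hq hq1 b
  have hD1 := (D1_pos hq l).ne'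
  have hD2 := (D1_pos hq (a + l + 1)).ne'
  have hD3 := (D1_pos hq (b + l + 1)).ne'
  have hD4 := (D1_pos hq (a + b + l)).ne'
  have hE1 : q ^ ((b + l + 1) * a + (a + 1).choose 2) ≠ 0 := (pow_pos hq _).ne'
  have hE2 : q ^ ((a + l + 1) * b + (b + 1).choose 2) ≠ 0 := (pow_pos hq _).ne'
  have hE3 : q ^ (2 * b * (l + 1) + (l + 1).choose 2) ≠ 0 := (pow_pos hq _).ne'
  have hE4 : q ^ (2 * b.choose 2) ≠ 0 := (pow_pos hq _).ne'
  have hE5 : q ^ ((2 * b + l + 1) * a) ≠ 0 := (pow_pos hq _).ne'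
  have hE6 : q ^ (a + b + l + 1) ≠ 0 := (pow_pos hq _).ne'
  have hE7 : q ^ (l + 1) ≠ 0 := (pow_pos hq _).ne'
  have hE8 : (1 + q ^ (a + b + l + 1)) ≠ 0 := by positivity
  have eA1 : A1 = D1 q (a + b + l + 1) /
      (q ^ ((b + l + 1) * a + (a + 1).choose 2) * D1 q (b + l + 1)) := by
    rw [← g1]; field_simp
  have eA2 : A2 = D1 q (a + b + l + 1) /
      (q ^ ((a + l + 1) * b + (b + 1).choose 2) * D1 q (a + l + 1)) := by
    rw [← g2]; field_simp
  have eR1 : 2 * R1 = 1 / (q ^ (2 * b * (l + 1) + (l + 1).choose 2) * D1 q l) := by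
    rw [← p1]; field_simp
  have eR2 : R2 = D1 q (a + b + l + 1) * D1 q (l + 1) /
      (D1 q (a + l + 1) * U1 q b * D1 q (b + l + 1) * q ^ (2 * b.choose 2)) := by
    rw [← p2]; field_simp
  have eR3 : R3 = (-1) ^ a / (U1 q a * q ^ ((2 * b + l + 1) * a)) := by
    rw [← p3]; field_simp
  have e0 : q ^ ((a + b + l + 1).choose 2) * D1 q (a + b + l) *
      (2 * (1 * q ^ b) * R1 * R2 * R3) =
      q ^ ((a + b + l + 1).choose 2) * D1 q (a + b + l) * q ^ b * (2 * R1) * R2 * R3 := by ring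
  rw [e0, eR1, eR2, eR3, eA1, eA2, d1, d2]
  have e1 : (1 + q ^ (a + b) / q ^ (a + b + l + 1)) = (1 + q ^ (l + 1)) / q ^ (l + 1) := by
    rw [show a + b + l + 1 = (a + b) + (l + 1) by ring, pow_add]
    have : q ^ (a + b) ≠ 0 := (pow_pos hq _).ne'
    field_simp
    ring
  have e2 : (1 + 1 / q ^ (a + b + l + 1)) = (1 + q ^ (a + b + l + 1)) / q ^ (a + b + l + 1) := by
    field_simp
    ring
  rw [e1, e2]
  generalize q ^ ((b + l + 1) * a + (a + 1).choose 2) = z1 at *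
  generalize q ^ ((a + l + 1) * b + (b + 1).choose 2) = z2 at *
  generalize q ^ (2 * b * (l + 1) + (l + 1).choose 2) = z3 at *
  generalize q ^ (2 * b.choose 2) = z4 at *
  generalize q ^ ((2 * b + l + 1) * a) = z5 at *
  generalize q ^ ((a + b + l) * a + b) = z6 at *
  generalize q ^ ((a + b + l + 1).choose 2) = z7 at *
  generalize q ^ (a + b + l + 1) = z8 at *
  generalize q ^ (l + 1) = z9 at *
  generalize q ^ b = z10 at *
  generalize (-1 : ℝ) ^ a = z11 at *
  generalize D1 q (a + b + l) = y1 at *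
  generalize D1 q l = y2 at *
  generalize D1 q (a + l + 1) = y3 at *
  generalize D1 q (b + l + 1) = y4 at *
  generalize U1 q a = y5 at *
  generalize U1 q b = y6 at *
  field_simp
  linear_combination (z11 * (1 + z9)) * hx

end Pool.Agent.H79.QG
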