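import Mathlib

/-!
# The interval formula for the coefficients of the q-gamma expansion

`ext_real`: if `A(t) (1-t)(1-tq)..(1-tq^n) = ∑_j c_j t^j ∏_{i=j+1}^{n-1-j} (1+tq^i)` then
`c_k = ∑_{a+b ≤ k} C_ab q^(bn) φ_{k-a-b}`, `φ_m` the coefficients of `A`.
-/

set_option autoImplicit false

open Finset PowerSeries

namespace Pool.Agent.H79.QG

/-- the coefficient of the window `[b, k+1-a)` -/
noncomputable def Cab (q : ℝ) (k a b : ℕ) : ℝ :=
  (-1) ^ a * q ^ (k * a + b) * (1 + q ^ (a + b) / q ^ (k + 1)) *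
    (∏ i ∈ range a, (1 + q ^ i / q ^ (k + 1))) * (∏ i ∈ range b, (1 + q ^ i / q ^ (k + 1))) /
    ((1 + 1 / q ^ (k + 1)) * (∏ i ∈ range a, (1 - q ^ (i + 1))) *
      ∏ i ∈ range b, (1 - q ^ (i + 1)))

/-- coefficient with an integer index, `0` for negative indices -/
noncomputable def cz (P : PowerSeries ℝ) (z : ℤ) : ℝ := if 0 ≤ z then coeff z.toNat P else 0

theorem cz_nat (P : PowerSeries ℝ) (m : ℕ) : cz P m = coeff m P := by
  unfold cz
  rw [if_pos (by positivity), Int.toNat_natCast]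

theorem cz_neg (P : PowerSeries ℝ) {z : ℤ} (h : z < 0) : cz P z = 0 := by
  unfold cz
  rw [if_neg (by omega)]

theorem cz_X_mul (P : PowerSeries ℝ) (z : ℤ) : cz (P * X) z = cz P (z - 1) := by
  rcases lt_trichotomy z 0 with h | h | h
  · rw [cz_neg _ h, cz_neg _ (by omega)]
  · subst h
    rw [cz_neg _ (by norm_num : (0 : ℤ) - 1 < 0)]
    have : cz (P * X) ((0 : ℕ) : ℤ) = 0 := by
      rw [cz_nat, coeff_zero_mul_X]
    simpa using this
  · obtain ⟨m, rfl⟩ : ∃ m : ℕ, z = ((m + 1 : ℕ) : ℤ) := ⟨z.toNat - 1, by omega⟩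
    rw [cz_nat, coeff_succ_mul_X]
    have : ((m + 1 : ℕ) : ℤ) - 1 = (m : ℤ) := by push_cast; ring
    rw [this, cz_nat]

theorem cz_C_mul (a : ℝ) (P : PowerSeries ℝ) (z : ℤ) : cz (C a * P) z = a * cz P z := by
  unfold cz
  split_ifs
  · rw [coeff_C_mul]
  · simp

theorem cz_add (P Q : PowerSeries ℝ) (z : ℤ) : cz (P + Q) z = cz P z + cz Q z := by
  unfold cz
  split_ifs
  · rw [map_add]
  · simp

/-- the product of `(1 + q^i t)(1 + q^(n-i) t)` is palindromic -/
theorem pal_prod {q : ℝ} (hq : q ≠ 0) (n : ℕ) (T : Finset ℕ) (hT : ∀ i ∈ T, i ≤ n) :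
    ∀ u : ℤ, cz (∏ i ∈ T, ((1 + C (q ^ i) * X) * (1 + C (q ^ (n - i)) * X))) (T.card + u) =
      q ^ ((n : ℤ) * u) *
        cz (∏ i ∈ T, ((1 + C (q ^ i) * X) * (1 + C (q ^ (n - i)) * X))) (T.card - u) := by
  induction T using Finset.induction_on with
  | empty =>
    intro u
    rw [prod_empty, card_empty]
    simp only [Nat.cast_zero, zero_add, zero_sub]
    rcases lt_trichotomy u 0 with h | h | h
    · rw [cz_neg _ h]
      obtain ⟨m, hm⟩ : ∃ m : ℕ, -u = ((m + 1 : ℕ) : ℤ) := ⟨(-u).toNat - 1, by omega⟩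
      rw [hm, cz_nat, coeff_one, if_neg (by omega), mul_zero]
    · subst h
      simp
    · rw [cz_neg _ (by omega : -u < 0)]
      obtain ⟨m, hm⟩ : ∃ m : ℕ, u = ((m + 1 : ℕ) : ℤ) := ⟨u.toNat - 1, by omega⟩
      rw [hm, cz_nat, coeff_one, if_neg (by omega), mul_zero]
  | insert i T hi ih =>
    intro u
    have hin : i ≤ n := hT i (mem_insert_self _ _)
    have ih' := ih fun j hj => hT j (mem_insert_of_mem hj)
    rw [prod_insert hi, card_insert_of_notMem hi]
    set R : PowerSeries ℝ := ∏ i ∈ T, ((1 + C (q ^ i) * X) * (1 + C (q ^ (n - i)) * X)) with hR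
    have hexp : ((1 + C (q ^ i) * X) * (1 + C (q ^ (n - i)) * X)) * R =
        R + C (q ^ i + q ^ (n - i)) * (R * X) + C (q ^ n) * (R * X * X) := by
      have : (C (q ^ n) : PowerSeries ℝ) = C (q ^ i) * C (q ^ (n - i)) := by
        rw [← map_mul, ← pow_add, Nat.add_sub_cancel' hin]
      rw [this, map_add]
      ring
    have hcz : ∀ z : ℤ, cz (((1 + C (q ^ i) * X) * (1 + C (q ^ (n - i)) * X)) * R) z =
        cz R z + (q ^ i + q ^ (n - i)) * cz R (z - 1) + q ^ n * cz R (z - 2) := by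
      intro z
      rw [hexp, cz_add, cz_add, cz_C_mul, cz_C_mul, cz_X_mul, cz_X_mul, cz_X_mul]
      ring_nf
    rw [hcz, hcz]
    have e1 := ih' (u + 1)
    have e2 := ih' u
    have e3 := ih' (u - 1)
    have k1 : (((T.card + 1 : ℕ) : ℤ)) + u = (T.card : ℤ) + (u + 1) := by push_cast; ring
    have k2 : (((T.card + 1 : ℕ) : ℤ)) + u - 1 = (T.card : ℤ) + u := by push_cast; ring
    have k3 : (((T.card + 1 : ℕ) : ℤ)) + u - 2 = (T.card : ℤ) + (u - 1) := by push_cast; ring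
    have k4 : (((T.card + 1 : ℕ) : ℤ)) - u = (T.card : ℤ) - (u - 1) := by push_cast; ring
    have k5 : (((T.card + 1 : ℕ) : ℤ)) - u - 1 = (T.card : ℤ) - u := by push_cast; ring
    have k6 : (((T.card + 1 : ℕ) : ℤ)) - u - 2 = (T.card : ℤ) - (u + 1) := by push_cast; ring
    rw [k2, k3, k5, k6, k1, k4, e1, e2, e3]
    have p1 : q ^ ((n : ℤ) * (u + 1)) = q ^ ((n : ℤ) * u) * q ^ n := by
      rw [mul_add, mul_one, zpow_add₀ hq, zpow_natCast]
    have p2 : q ^ n * q ^ ((n : ℤ) * (u - 1)) = q ^ ((n : ℤ) * u) := by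
      rw [mul_sub, mul_one, ← zpow_natCast q n, ← zpow_add₀ hq]
      ring_nf
    rw [p1]
    have p3 : q ^ n * (q ^ ((n : ℤ) * (u - 1)) * cz R ((T.card : ℤ) - (u - 1))) =
        q ^ ((n : ℤ) * u) * cz R ((T.card : ℤ) - (u - 1)) := by
      rw [← mul_assoc, p2]
    rw [p3]
    ring

/-- the middle coefficient vanishes -/
theorem mid_zero {q : ℝ} (hq : q ≠ 0) (n : ℕ) (T : Finset ℕ) (hT : ∀ i ∈ T, i ≤ n) :
    coeff (T.card + 1) ((1 - C (q ^ n) * X * X) *
      ∏ i ∈ T, ((1 + C (q ^ i) * X) * (1 + C (q ^ (n - i)) * X))) = 0 := by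
  set R : PowerSeries ℝ := ∏ i ∈ T, ((1 + C (q ^ i) * X) * (1 + C (q ^ (n - i)) * X)) with hR
  have h1 := pal_prod hq n T hT 1
  rw [← hR, mul_one, zpow_natCast] at h1
  have h2 : (1 - C (q ^ n) * X * X) * R = R + C (-(q ^ n)) * (R * X * X) := by
    rw [map_neg]; ring
  rw [h2, ← cz_nat, cz_add, cz_C_mul, cz_X_mul, cz_X_mul]
  have e1 : ((T.card + 1 : ℕ) : ℤ) = (T.card : ℤ) + 1 := by push_cast; ring
  rw [e1, h1]
  have e2 : (T.card : ℤ) + 1 - 1 - 1 = (T.card : ℤ) - 1 := by ring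
  rw [e2]
  ring

/-- extraction of the coefficient `c_k` -/
theorem extract {q : ℝ} (hq : q ≠ 0) {n k : ℕ} (hk : 2 * k + 1 ≤ n) (c : ℕ → ℝ)
    (S G : PowerSeries ℝ)
    (hS : S = ∑ j ∈ range ((n - 1) / 2 + 1),
      C (c j) * (X ^ j * ∏ i ∈ Icc (j + 1) (n - 1 - j), (1 + C (q ^ i) * X)))
    (hG : G * ∏ i ∈ Icc k (n - k), (1 + C (q ^ i) * X) = 1) :
    coeff k ((1 - C (q ^ n) * X * X) * (S * G)) = c k := by
  rw [hS, sum_mul, mul_sum, map_sum]
  rw [sum_eq_single k]
  · -- j = k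
    have e : (1 - C (q ^ n) * X * X) *
        (C (c k) * (X ^ k * ∏ i ∈ Icc (k + 1) (n - 1 - k), (1 + C (q ^ i) * X)) * G) =
        C (c k) * (X ^ k * ((1 - C (q ^ n) * X * X) *
          ((∏ i ∈ Icc (k + 1) (n - 1 - k), (1 + C (q ^ i) * X)) * G))) := by ring
    rw [e, coeff_C_mul, coeff_X_pow_mul', if_pos le_rfl, Nat.sub_self, coeff_zero_eq_constantCoeff,
      map_mul, map_mul, map_sub, map_mul, map_mul]
    have h1 := congrArg (constantCoeff (R := ℝ)) hG
    rw [map_mul, map_one, map_prod] at h1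
    have h2 : ∀ i, constantCoeff (1 + C (q ^ i) * X : PowerSeries ℝ) = 1 := by
      intro i; simp
    simp only [h2, prod_const_one, mul_one] at h1
    rw [map_prod]
    simp only [h2, prod_const_one, mul_one, h1, map_one, constantCoeff_X, mul_zero, sub_zero]
  · intro j hj hjk
    rw [mem_range] at hj
    rcases lt_or_gt_of_ne hjk with h | h
    · -- j < k
      have hprod : ∏ i ∈ Icc (j + 1) (n - 1 - j), (1 + C (q ^ i) * X : PowerSeries ℝ) =
          (∏ i ∈ Ico (j + 1) k, ((1 + C (q ^ i) * X) * (1 + C (q ^ (n - i)) * X))) *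
            ∏ i ∈ Icc k (n - k), (1 + C (q ^ i) * X) := by
        have h1 : Icc (j + 1) (n - 1 - j) = Ico (j + 1) (n - j) := by
          ext i; rw [mem_Icc, mem_Ico]; omega
        have h2 : Icc k (n - k) = Ico k (n - k + 1) := by
          ext i; rw [mem_Icc, mem_Ico]; omega
        rw [h1, h2, ← prod_Ico_consecutive (fun i => (1 + C (q ^ i) * X : PowerSeries ℝ))
          (by omega : j + 1 ≤ k) (by omega : k ≤ n - j),
          ← prod_Ico_consecutive (fun i => (1 + C (q ^ i) * X : PowerSeries ℝ))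
          (by omega : k ≤ n - k + 1) (by omega : n - k + 1 ≤ n - j), prod_mul_distrib]
        have h3 : ∏ i ∈ Ico (n - k + 1) (n - j), (1 + C (q ^ i) * X : PowerSeries ℝ) =
            ∏ i ∈ Ico (j + 1) k, (1 + C (q ^ (n - i)) * X) := by
          refine prod_bij' (fun i _ => n - i) (fun i _ => n - i) ?_ ?_ ?_ ?_ ?_
          · intro i hi; rw [mem_Ico] at hi ⊢; omega
          · intro i hi; rw [mem_Ico] at hi ⊢; omega
          · intro i hi; rw [mem_Ico] at hi; omega
          · intro i hi; rw [mem_Ico] at hi; omega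
          · intro i hi
            rw [mem_Ico] at hi
            have : n - (n - i) = i := by omega
            rw [this]
        rw [h3]
        ring
      rw [hprod]
      have e : (1 - C (q ^ n) * X * X) * (C (c j) * (X ^ j *
          ((∏ i ∈ Ico (j + 1) k, ((1 + C (q ^ i) * X) * (1 + C (q ^ (n - i)) * X))) *
            ∏ i ∈ Icc k (n - k), (1 + C (q ^ i) * X))) * G) =
          C (c j) * (X ^ j * ((1 - C (q ^ n) * X * X) *
            ∏ i ∈ Ico (j + 1) k, ((1 + C (q ^ i) * X) * (1 + C (q ^ (n - i)) * X)))) *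
            (G * ∏ i ∈ Icc k (n - k), (1 + C (q ^ i) * X)) := by ring
      rw [e, hG, mul_one, coeff_C_mul, coeff_X_pow_mul', if_pos h.le]
      have hc : (Ico (j + 1) k).card = k - j - 1 := by rw [Nat.card_Ico]; omega
      have h4 := mid_zero hq n (Ico (j + 1) k) (by
        intro i hi; rw [mem_Ico] at hi; omega)
      rw [hc, show k - j - 1 + 1 = k - j by omega] at h4
      rw [h4, mul_zero]
    · -- j > k
      have e : (1 - C (q ^ n) * X * X) *
        (C (c j) * (X ^ j * ∏ i ∈ Icc (j + 1) (n - 1 - j), (1 + C (q ^ i) * X)) * G) =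
        C (c j) * (X ^ j * ((1 - C (q ^ n) * X * X) *
          ((∏ i ∈ Icc (j + 1) (n - 1 - j), (1 + C (q ^ i) * X)) * G))) := by ring
      rw [e, coeff_C_mul, coeff_X_pow_mul', if_neg (by omega), mul_zero]
  · intro hkn
    exact absurd (mem_range.2 (by omega)) hkn

end Pool.Agent.H79.QG
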