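import Pool.Agent.H79.QG.ExtE

/-!
# The interval formula, part 2: the q-binomial theorem and the closed form
-/

set_option autoImplicit false

open Finset PowerSeries

namespace Pool.Agent.H79.QG

noncomputable def xa (q : ℝ) (k a : ℕ) : ℝ :=
  (-1) ^ a * q ^ (k * a) * (∏ i ∈ range a, (1 + q ^ i / q ^ k)) / ∏ i ∈ range a, (1 - q ^ (i + 1))

noncomputable def yb (q : ℝ) (k b : ℕ) : ℝ :=
  (∏ i ∈ range b, (1 + q ^ i / q ^ k)) / ∏ i ∈ range b, (1 - q ^ (i + 1))

noncomputable def Xs (q : ℝ) (k : ℕ) : PowerSeries ℝ := mk (xa q k)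
noncomputable def Ys (q : ℝ) (k : ℕ) : PowerSeries ℝ := mk (yb q k)

theorem one_sub_ne {q : ℝ} (hq : 0 < q) (hq1 : q ≠ 1) (i : ℕ) : 1 - q ^ (i + 1) ≠ 0 := by
  intro h
  have h1 : q ^ (i + 1) = 1 := by linarith
  rw [pow_eq_one_iff_of_nonneg hq.le (by omega)] at h1
  exact hq1 h1

theorem xa_succ {q : ℝ} (hq : 0 < q) (hq1 : q ≠ 1) (k a : ℕ) :
    xa q k (a + 1) * (1 - q ^ (a + 1)) = -(q ^ k + q ^ a) * xa q k a := by
  unfold xa
  rw [prod_range_succ, prod_range_succ]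
  have h1 := one_sub_ne hq hq1 a
  have h2 : ∏ i ∈ range a, (1 - q ^ (i + 1)) ≠ 0 := prod_ne_zero_iff.2 fun i _ => one_sub_ne hq hq1 i
  have h3 : q ^ k ≠ 0 := (pow_pos hq k).ne'
  rw [mul_add, mul_one, pow_add]
  field_simp
  ring

theorem yb_succ {q : ℝ} (hq : 0 < q) (hq1 : q ≠ 1) (k b : ℕ) :
    yb q k (b + 1) * (1 - q ^ (b + 1)) = (1 + q ^ b / q ^ k) * yb q k b := by
  unfold yb
  rw [prod_range_succ, prod_range_succ]
  have h1 := one_sub_ne hq hq1 b
  have h2 : ∏ i ∈ range b, (1 - q ^ (i + 1)) ≠ 0 := prod_ne_zero_iff.2 fun i _ => one_sub_ne hq hq1 i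
  field_simp

theorem coeff_mul_lin (P : PowerSeries ℝ) (c : ℝ) (m : ℕ) :
    coeff (m + 1) (P * (1 + C c * X)) = coeff (m + 1) P + c * coeff m P := by
  have : P * (1 + C c * X) = P + C c * (P * X) := by ring
  rw [this, map_add, coeff_C_mul, coeff_succ_mul_X]

theorem coeff_mul_lin_zero (P : PowerSeries ℝ) (c : ℝ) :
    coeff 0 (P * (1 + C c * X)) = coeff 0 P := by
  have : P * (1 + C c * X) = P + C c * (P * X) := by ring
  rw [this, map_add, coeff_C_mul, coeff_zero_mul_X, mul_zero, add_zero]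

theorem one_sub_lin (c : ℝ) : (1 - C c * X : PowerSeries ℝ) = 1 + C (-c) * X := by
  rw [map_neg]; ring

theorem one_sub_X : (1 - X : PowerSeries ℝ) = 1 + C (-1) * X := by
  rw [map_neg, map_one]; ring

theorem fe_x {q : ℝ} (hq : 0 < q) (hq1 : q ≠ 1) (k : ℕ) :
    Xs q k * (1 + C (q ^ k) * X) = rescale q (Xs q k) * (1 - X) := by
  ext m
  rw [one_sub_X]
  cases m with
  | zero => rw [coeff_mul_lin_zero, coeff_mul_lin_zero, coeff_rescale, pow_zero, one_mul]
  | succ m =>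
    rw [coeff_mul_lin, coeff_mul_lin, coeff_rescale, coeff_rescale]
    unfold Xs
    rw [coeff_mk, coeff_mk]
    have := xa_succ hq hq1 k m
    linarith

theorem fe_y {q : ℝ} (hq : 0 < q) (hq1 : q ≠ 1) (k m : ℕ) :
    rescale (q ^ m) (Ys q k) * (1 - C (q ^ m) * X) =
      rescale (q ^ (m + 1)) (Ys q k) * (1 + C (q ^ m / q ^ k) * X) := by
  ext r
  rw [one_sub_lin]
  cases r with
  | zero => rw [coeff_mul_lin_zero, coeff_mul_lin_zero, coeff_rescale, coeff_rescale, pow_zero, pow_zero]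
  | succ r =>
    rw [coeff_mul_lin, coeff_mul_lin, coeff_rescale, coeff_rescale, coeff_rescale, coeff_rescale]
    unfold Ys
    rw [coeff_mk, coeff_mk]
    have h := yb_succ hq hq1 k r
    have e1 : (q ^ (m + 1)) ^ (r + 1) = (q ^ m) ^ (r + 1) * q ^ (r + 1) := by
      rw [pow_succ q m, mul_pow]
    have e2 : (q ^ (m + 1)) ^ r = (q ^ m) ^ r * q ^ r := by
      rw [pow_succ q m, mul_pow]
    rw [e1, e2]
    have e3 : (q ^ m) ^ (r + 1) = (q ^ m) ^ r * q ^ m := pow_succ _ _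
    rw [e3]
    have h' : yb q k (r + 1) - q ^ (r + 1) * yb q k (r + 1) = yb q k r + q ^ r / q ^ k * yb q k r := by
      linarith
    have : (q ^ m) ^ r * q ^ m * (yb q k (r + 1) - q ^ (r + 1) * yb q k (r + 1)) =
        (q ^ m) ^ r * q ^ m * (yb q k r + q ^ r / q ^ k * yb q k r) := by rw [h']
    have e4 : q ^ m / q ^ k * ((q ^ m) ^ r * q ^ r * yb q k r) =
        (q ^ m) ^ r * q ^ m * (q ^ r / q ^ k * yb q k r) := by ring
    rw [e4]
    linarith

theorem rescale_C_lin (a c : ℝ) :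
    rescale a (1 + C c * X : PowerSeries ℝ) = 1 + C (c * a) * X := by
  have h : rescale a (C c : PowerSeries ℝ) = C c := by
    ext m
    rw [coeff_rescale, coeff_C]
    split_ifs with h
    · simp [h]
    · simp
  rw [map_add, map_one, map_mul, rescale_X, h, map_mul]
  ring

theorem fin_prod {q : ℝ} (m : ℕ) :
    (∏ i ∈ range m, (1 - C (q ^ i) * X : PowerSeries ℝ)) * (1 - C (q ^ m) * X) =
      rescale q (∏ i ∈ range m, (1 - C (q ^ i) * X : PowerSeries ℝ)) * (1 - X) := by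
  have h1 : rescale q (∏ i ∈ range m, (1 - C (q ^ i) * X : PowerSeries ℝ)) =
      ∏ i ∈ range m, (1 - C (q ^ (i + 1)) * X : PowerSeries ℝ) := by
    rw [map_prod]
    refine prod_congr rfl fun i _ => ?_
    rw [one_sub_lin, rescale_C_lin, one_sub_lin, pow_succ]
    ring_nf
  rw [h1, ← prod_range_succ, prod_range_succ']
  simp

/-- uniqueness of the solution -/
theorem uniq {q : ℝ} (hq : 0 < q) (hq1 : q ≠ 1) (c : ℝ) (P R : PowerSeries ℝ)
    (h0 : coeff 0 P = coeff 0 R)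
    (hP : P * (1 - C c * X) = rescale q P * (1 - X))
    (hR : R * (1 - C c * X) = rescale q R * (1 - X)) : P = R := by
  have key : ∀ Z : PowerSeries ℝ, Z * (1 - C c * X) = rescale q Z * (1 - X) →
      ∀ m, coeff (m + 1) Z * (1 - q ^ (m + 1)) = (c - q ^ m) * coeff m Z := by
    intro Z hZ m
    have h := congrArg (coeff (m + 1)) hZ
    rw [one_sub_lin, one_sub_X, coeff_mul_lin, coeff_mul_lin, coeff_rescale, coeff_rescale] at h
    linarith
  ext m
  induction m with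
  | zero => exact h0
  | succ m ih =>
    have h1 := key P hP m
    have h2 := key R hR m
    rw [ih] at h1
    have h3 : coeff (m + 1) P * (1 - q ^ (m + 1)) = coeff (m + 1) R * (1 - q ^ (m + 1)) := by
      rw [h1, h2]
    exact mul_right_cancel₀ (one_sub_ne hq hq1 m) h3

theorem Xs_zero (q : ℝ) (k : ℕ) : coeff 0 (Xs q k) = 1 := by
  unfold Xs xa
  rw [coeff_mk]; simp

theorem Ys_zero (q : ℝ) (k : ℕ) : coeff 0 (Ys q k) = 1 := by
  unfold Ys yb
  rw [coeff_mk]; simp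

theorem base_eq {q : ℝ} (hq : 0 < q) (hq1 : q ≠ 1) (k : ℕ) :
    ∏ i ∈ range (2 * k), (1 - C (q ^ i) * X : PowerSeries ℝ) =
      Xs q k * rescale (q ^ (2 * k)) (Ys q k) := by
  refine uniq hq hq1 (q ^ (2 * k)) _ _ ?_ (fin_prod (2 * k)) ?_
  · rw [coeff_zero_eq_constantCoeff, map_prod]
    have h2 : ∀ i, constantCoeff (1 - C (q ^ i) * X : PowerSeries ℝ) = 1 := by
      intro i; simp
    simp only [h2, prod_const_one]
    rw [map_mul, ← coeff_zero_eq_constantCoeff_apply, ← coeff_zero_eq_constantCoeff_apply, Xs_zero,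
      coeff_rescale, Ys_zero]
    simp
  · have hx := fe_x hq hq1 k
    have hy := fe_y hq hq1 k (2 * k)
    have e : q ^ (2 * k) / q ^ k = q ^ k := by
      rw [two_mul, pow_add]
      field_simp
    rw [e] at hy
    have hr : rescale q (Xs q k * rescale (q ^ (2 * k)) (Ys q k)) =
        rescale q (Xs q k) * rescale (q ^ (2 * k + 1)) (Ys q k) := by
      rw [map_mul]
      congr 1
      rw [rescale_rescale, pow_succ]
    rw [hr]
    have hne : (1 + C (q ^ k) * X : PowerSeries ℝ) ≠ 0 := by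
      intro h
      have h1 := congrArg (constantCoeff (R := ℝ)) h
      simp at h1
    apply mul_right_cancel₀ hne
    calc Xs q k * rescale (q ^ (2 * k)) (Ys q k) * (1 - C (q ^ (2 * k)) * X) *
          (1 + C (q ^ k) * X)
        = (Xs q k * (1 + C (q ^ k) * X)) *
          (rescale (q ^ (2 * k)) (Ys q k) * (1 - C (q ^ (2 * k)) * X)) := by ring
      _ = _ := by rw [hx, hy]; ring

theorem all_eq {q : ℝ} (hq : 0 < q) (hq1 : q ≠ 1) (k d : ℕ) :
    ∏ i ∈ range (2 * k + d), (1 - C (q ^ i) * X : PowerSeries ℝ) =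
      Xs q k * rescale (q ^ (2 * k + d)) (Ys q k) *
        ∏ i ∈ Ico k (k + d), (1 + C (q ^ i) * X : PowerSeries ℝ) := by
  induction d with
  | zero =>
    simp only [add_zero, Ico_self, prod_empty, mul_one]
    exact base_eq hq hq1 k
  | succ d ih =>
    rw [← add_assoc (2 * k) d 1, prod_range_succ, ih, ← add_assoc k d 1,
      prod_Ico_succ_top (by omega : k ≤ k + d)]
    have hy := fe_y hq hq1 k (2 * k + d)
    have e : q ^ (2 * k + d) / q ^ k = q ^ (k + d) := by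
      rw [show 2 * k + d = k + (k + d) by ring, pow_add q k (k + d)]
      field_simp
    rw [e] at hy
    calc Xs q k * rescale (q ^ (2 * k + d)) (Ys q k) *
          (∏ i ∈ Ico k (k + d), (1 + C (q ^ i) * X : PowerSeries ℝ)) *
          (1 - C (q ^ (2 * k + d)) * X)
        = Xs q k * (rescale (q ^ (2 * k + d)) (Ys q k) * (1 - C (q ^ (2 * k + d)) * X)) *
          ∏ i ∈ Ico k (k + d), (1 + C (q ^ i) * X : PowerSeries ℝ) := by ring
      _ = _ := by rw [hy]; ring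

/-- the closed form of the coefficients -/
theorem Cab_closed {q : ℝ} (hq : 0 < q) (hq1 : q ≠ 1) (k a b : ℕ) :
    Cab q k (a + 1) (b + 1) =
      xa q k (a + 1) * yb q k (b + 1) * q ^ (b + 1) - xa q k a * yb q k b * q ^ b := by
  have hx := xa_succ hq hq1 k a
  have hy := yb_succ hq hq1 k b
  have h1 := one_sub_ne hq hq1 a
  have h2 := one_sub_ne hq hq1 b
  have h3 : q ^ k ≠ 0 := (pow_pos hq k).ne'
  have h4 : (q ^ k + q ^ a) ≠ 0 := by positivity
  have h5 : (1 + q ^ b / q ^ k) ≠ 0 := by positivity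
  have hC : Cab q k (a + 1) (b + 1) = (-1) ^ (a + 1) * q ^ (k * (a + 1) + (b + 1)) *
      (1 + q ^ (a + 1 + (b + 1)) / q ^ (k + 1)) * (1 + 1 / q ^ (k + 1)) *
      ((∏ i ∈ range a, (1 + q ^ i / q ^ k)) / (∏ i ∈ range (a + 1), (1 - q ^ (i + 1)))) *
      ((∏ i ∈ range b, (1 + q ^ i / q ^ k)) / (∏ i ∈ range (b + 1), (1 - q ^ (i + 1)))) := by
    unfold Cab
    have e : ∀ m : ℕ, ∏ i ∈ range (m + 1), (1 + q ^ i / q ^ (k + 1)) =
        (∏ i ∈ range m, (1 + q ^ i / q ^ k)) * (1 + 1 / q ^ (k + 1)) := by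
      intro m
      rw [prod_range_succ']
      congr 1
      · refine prod_congr rfl fun i _ => ?_
        rw [pow_succ, pow_succ]
        field_simp
    rw [e, e]
    have h6 : (1 + 1 / q ^ (k + 1)) ≠ 0 := by positivity
    have h7 : ∏ i ∈ range (a + 1), (1 - q ^ (i + 1)) ≠ 0 :=
      prod_ne_zero_iff.2 fun i _ => one_sub_ne hq hq1 i
    have h8 : ∏ i ∈ range (b + 1), (1 - q ^ (i + 1)) ≠ 0 :=
      prod_ne_zero_iff.2 fun i _ => one_sub_ne hq hq1 i
    field_simp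
  rw [hC]
  unfold xa yb
  rw [prod_range_succ (fun i => 1 + q ^ i / q ^ k) a, prod_range_succ (fun i => 1 + q ^ i / q ^ k) b,
    prod_range_succ (fun i => 1 - q ^ (i + 1)) a, prod_range_succ (fun i => 1 - q ^ (i + 1)) b]
  have h7 : ∏ i ∈ range a, (1 - q ^ (i + 1)) ≠ 0 :=
    prod_ne_zero_iff.2 fun i _ => one_sub_ne hq hq1 i
  have h8 : ∏ i ∈ range b, (1 - q ^ (i + 1)) ≠ 0 :=
    prod_ne_zero_iff.2 fun i _ => one_sub_ne hq hq1 i
  set A := ∏ i ∈ range a, (1 + q ^ i / q ^ k)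
  set B := ∏ i ∈ range b, (1 + q ^ i / q ^ k)
  set U := ∏ i ∈ range a, (1 - q ^ (i + 1))
  set V := ∏ i ∈ range b, (1 - q ^ (i + 1))
  have e1 : q ^ (k * (a + 1) + (b + 1)) = q ^ (k * a) * q ^ k * (q ^ b * q) := by
    rw [pow_add, mul_add, mul_one, pow_add, pow_succ q b]
  have e2 : q ^ (k * (a + 1)) = q ^ (k * a) * q ^ k := by
    rw [mul_add, mul_one, pow_add]
  have e3 : q ^ (a + 1 + (b + 1)) = q ^ a * q * (q ^ b * q) := by
    rw [pow_add, pow_succ, pow_succ]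
  have e4 : q ^ (k + 1) = q ^ k * q := pow_succ q k
  have e5 : q ^ (a + 1) = q ^ a * q := pow_succ q a
  have e6 : q ^ (b + 1) = q ^ b * q := pow_succ q b
  have e7 : (-1 : ℝ) ^ (a + 1) = -(-1) ^ a := by rw [pow_succ]; ring
  rw [e1, e2, e3, e4, e5, e6, e7]
  rw [e5] at h1
  rw [e6] at h2
  set K := q ^ k
  set P := q ^ a
  set R := q ^ b
  set W := q ^ (k * a)
  set s := (-1 : ℝ) ^ a
  have hq0 : q ≠ 0 := hq.ne'
  have h1' : 1 - q * P ≠ 0 := by rw [mul_comm]; exact h1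
  have h2' : 1 - q * R ≠ 0 := by rw [mul_comm]; exact h2
  field_simp
  ring

theorem Cab_left {q : ℝ} (hq : 0 < q) (k b : ℕ) :
    Cab q k 0 b = xa q k 0 * yb q k b * q ^ b := by
  unfold Cab xa yb
  simp only [pow_zero, mul_zero, zero_add, range_zero, prod_empty, one_mul, mul_one, div_one]
  have h3 : q ^ k ≠ 0 := (pow_pos hq k).ne'
  have h6 : (1 + 1 / q ^ (k + 1)) ≠ 0 := by positivity
  have e : (1 + q ^ b / q ^ (k + 1)) * ∏ i ∈ range b, (1 + q ^ i / q ^ (k + 1)) =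
      (∏ i ∈ range b, (1 + q ^ i / q ^ k)) * (1 + 1 / q ^ (k + 1)) := by
    rw [mul_comm, ← prod_range_succ (fun i => 1 + q ^ i / q ^ (k + 1)) b, prod_range_succ']
    congr 1
    · refine prod_congr rfl fun i _ => ?_
      rw [pow_succ, pow_succ]
      field_simp
  rw [mul_assoc (q ^ b), e]
  rw [← mul_assoc, mul_comm (q ^ b), mul_comm (1 + 1 / q ^ (k + 1)), mul_div_mul_right _ _ h6]
  ring

theorem Cab_right {q : ℝ} (hq : 0 < q) (k a : ℕ) :
    Cab q k a 0 = xa q k a * yb q k 0 * q ^ 0 := by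
  unfold Cab xa yb
  simp only [pow_zero, add_zero, range_zero, prod_empty, mul_one, div_one]
  have h3 : q ^ k ≠ 0 := (pow_pos hq k).ne'
  have h6 : (1 + 1 / q ^ (k + 1)) ≠ 0 := by positivity
  have e : (1 + q ^ a / q ^ (k + 1)) * ∏ i ∈ range a, (1 + q ^ i / q ^ (k + 1)) =
      (∏ i ∈ range a, (1 + q ^ i / q ^ k)) * (1 + 1 / q ^ (k + 1)) := by
    rw [mul_comm, ← prod_range_succ (fun i => 1 + q ^ i / q ^ (k + 1)) a, prod_range_succ']
    congr 1
    · refine prod_congr rfl fun i _ => ?_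
      rw [pow_succ, pow_succ]
      field_simp
  rw [mul_assoc ((-1) ^ a * q ^ (k * a)), e]
  rw [← mul_assoc, mul_comm (1 + 1 / q ^ (k + 1)) (∏ i ∈ range a, (1 - q ^ (i + 1))),
    mul_div_mul_right _ _ h6]

/-- the interval formula -/
theorem ext_real {q : ℝ} (hq : 0 < q) (hq1 : q ≠ 1) {n k : ℕ} (hk : 2 * k + 1 ≤ n)
    (φ c : ℕ → ℝ)
    (h : mk φ * ∏ i ∈ range (n + 1), (1 - C (q ^ i) * X : PowerSeries ℝ) =
      ∑ j ∈ range ((n - 1) / 2 + 1),
        C (c j) * (X ^ j * ∏ i ∈ Icc (j + 1) (n - 1 - j), (1 + C (q ^ i) * X))) :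
    c k = ∑ p ∈ antidiagonal k, φ p.1 *
      ∑ r ∈ antidiagonal p.2, Cab q k r.1 r.2 * q ^ (r.2 * n) := by
  have hne : constantCoeff (∏ i ∈ Icc k (n - k), (1 + C (q ^ i) * X : PowerSeries ℝ)) ≠ 0 := by
    rw [map_prod]
    have h2 : ∀ i, constantCoeff (1 + C (q ^ i) * X : PowerSeries ℝ) = 1 := by
      intro i; simp
    simp only [h2, prod_const_one]
    exact one_ne_zero
  have hG : (∏ i ∈ Icc k (n - k), (1 + C (q ^ i) * X : PowerSeries ℝ))⁻¹ *
      ∏ i ∈ Icc k (n - k), (1 + C (q ^ i) * X : PowerSeries ℝ) = 1 :=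
    PowerSeries.inv_mul_cancel _ hne
  have h1 := extract hq.ne' hk c _ _ h hG
  rw [← h1]
  have h2 := all_eq hq hq1 k (n + 1 - 2 * k)
  have h3 : 2 * k + (n + 1 - 2 * k) = n + 1 := by omega
  have h4 : Ico k (k + (n + 1 - 2 * k)) = Icc k (n - k) := by
    ext i; rw [mem_Ico, mem_Icc]; omega
  rw [h3, h4] at h2
  rw [h2]
  obtain ⟨Φ, hΦ⟩ : ∃ Φ : PowerSeries ℝ, Φ = mk φ := ⟨_, rfl⟩
  rw [← hΦ]
  have h5 : (1 - C (q ^ n) * X * X) * (Φ * (Xs q k * rescale (q ^ (n + 1)) (Ys q k) *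
      ∏ i ∈ Icc k (n - k), (1 + C (q ^ i) * X)) *
      (∏ i ∈ Icc k (n - k), (1 + C (q ^ i) * X : PowerSeries ℝ))⁻¹) =
      Φ * (Xs q k * rescale (q ^ (n + 1)) (Ys q k) -
        C (q ^ n) * ((Xs q k * X) * (rescale (q ^ (n + 1)) (Ys q k) * X))) := by
    have : (1 - C (q ^ n) * X * X) * (Φ * (Xs q k * rescale (q ^ (n + 1)) (Ys q k) *
      ∏ i ∈ Icc k (n - k), (1 + C (q ^ i) * X)) *
      (∏ i ∈ Icc k (n - k), (1 + C (q ^ i) * X : PowerSeries ℝ))⁻¹) =
      Φ * (Xs q k * rescale (q ^ (n + 1)) (Ys q k) -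
        C (q ^ n) * ((Xs q k * X) * (rescale (q ^ (n + 1)) (Ys q k) * X))) *
      ((∏ i ∈ Icc k (n - k), (1 + C (q ^ i) * X : PowerSeries ℝ))⁻¹ *
        ∏ i ∈ Icc k (n - k), (1 + C (q ^ i) * X)) := by ring
    rw [this, hG, mul_one]
  rw [h5, coeff_mul, hΦ]
  refine sum_congr rfl fun p _ => ?_
  rw [coeff_mk]
  congr 1
  rw [map_sub, coeff_C_mul, coeff_mul, coeff_mul, mul_sum, ← sum_sub_distrib]
  refine sum_congr rfl fun r _ => ?_
  obtain ⟨a, b⟩ := r
  simp only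
  have hX : ∀ m, coeff m (Xs q k) = xa q k m := fun m => by unfold Xs; rw [coeff_mk]
  have hY : ∀ m, coeff m (rescale (q ^ (n + 1)) (Ys q k)) = (q ^ (n + 1)) ^ m * yb q k m :=
    fun m => by rw [coeff_rescale]; unfold Ys; rw [coeff_mk]
  cases a with
  | zero =>
    rw [coeff_zero_mul_X, hX, hY, Cab_left hq]
    rw [← pow_mul, show (n + 1) * b = b + b * n by ring, pow_add]
    ring
  | succ a =>
    cases b with
    | zero =>
      rw [coeff_zero_mul_X, hX, hY, Cab_right hq]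
      simp
    | succ b =>
      rw [coeff_succ_mul_X, coeff_succ_mul_X, hX, hY, hX, hY, Cab_closed hq hq1]
      rw [← pow_mul, ← pow_mul, show (n + 1) * (b + 1) = (b + 1) + (b + 1) * n by ring,
        show (b + 1) * n = b * n + n by ring, show (n + 1) * b = b + b * n by ring]
      rw [pow_add, pow_add, pow_add, pow_add]
      ring

end Pool.Agent.H79.QG
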