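import Pool.Agent.H79.QG.ExtF
import Pool.Agent.H56.Inv.Final

/-!
# The interval formula for the q-gamma coefficients of involutions

`gamma_real`: for real `q > 0`, `q ≠ 1`, `k ≤ (n-1)/2` and `γ` as in the problem,
`q^C(k+1,2) γ_k(q) = ∑_{m + a + b = k} C_ab q^(bn) F_n(1,q,..,q^m)`.
-/

set_option autoImplicit false

open Finset

namespace Pool.Agent.H79.QG

open Pool.H56.Inv Pool.H56.InvQ

/-- evaluation at the real number `q` -/
noncomputable def ev (q : ℝ) : Polynomial ℤ →+* ℝ := Polynomial.eval₂RingHom (Int.castRingHom ℝ) q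

theorem ev_X (q : ℝ) : ev q Polynomial.X = q := by
  unfold ev
  rw [Polynomial.coe_eval₂RingHom, Polynomial.eval₂_X]

/-- the sum over the symmetric matrices of size `N` with sum `n` of `q ^ ∑ a * (row sum)` -/
noncomputable def Fr (q : ℝ) (n N : ℕ) : ℝ := ∑ A ∈ SM n N, q ^ wt A

theorem ev_Fp (q : ℝ) (n N : ℕ) : ev q (Fp n N) = Fr q n N := by
  unfold Fp Fr
  rw [map_sum]
  refine sum_congr rfl fun A _ => ?_
  rw [map_pow, ev_X]

theorem gamma_real {q : ℝ} (hq : 0 < q) (hq1 : q ≠ 1) {n k : ℕ} (hk : 2 * k + 1 ≤ n)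
    {γ : ℕ → Polynomial ℤ} (h : invPoly n = expansion n γ) :
    q ^ ((k + 1).choose 2) * ev q (γ k) =
      ∑ p ∈ antidiagonal k, Fr q n (p.1 + 1) *
        ∑ r ∈ antidiagonal p.2, Cab q k r.1 r.2 * q ^ (r.2 * n) := by
  rw [expansion_iff] at h
  have h1 : (PowerSeries.mk fun m => Fp n (m + 1)) * Den n
      = ∑ j ∈ range ((n - 1) / 2 + 1), PowerSeries.C (Polynomial.X ^ ((j + 1).choose 2) * γ j)
        * (PowerSeries.X ^ j * Es n j) := by
    ext r : 1
    rw [pc_eq (Or.inl rfl), h, map_sum]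
    apply Finset.sum_congr rfl
    intro j _
    rw [PowerSeries.coeff_C_mul, PowerSeries.coeff_X_pow_mul']
    unfold bc
    split_ifs
    · ring
    · simp
  have h2 := congrArg (PowerSeries.map (ev q)) h1
  rw [map_mul, map_sum] at h2
  have e1 : PowerSeries.map (ev q) (PowerSeries.mk fun m => Fp n (m + 1)) =
      PowerSeries.mk fun m => Fr q n (m + 1) := by
    ext m
    rw [PowerSeries.coeff_map, PowerSeries.coeff_mk, PowerSeries.coeff_mk, ev_Fp]
  have e2 : PowerSeries.map (ev q) (Den n) =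
      ∏ i ∈ range (n + 1), (1 - PowerSeries.C (q ^ i) * PowerSeries.X) := by
    unfold Den
    rw [map_prod]
    refine prod_congr rfl fun i _ => ?_
    rw [map_sub, map_one, map_mul, PowerSeries.map_C, PowerSeries.map_X, map_pow, ev_X]
  have e3 : ∀ j, PowerSeries.map (ev q) (PowerSeries.C (Polynomial.X ^ ((j + 1).choose 2) * γ j)
        * (PowerSeries.X ^ j * Es n j)) =
      PowerSeries.C (q ^ ((j + 1).choose 2) * ev q (γ j)) * (PowerSeries.X ^ j *
        ∏ i ∈ Icc (j + 1) (n - 1 - j), (1 + PowerSeries.C (q ^ i) * PowerSeries.X)) := by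
    intro j
    unfold Es
    have hC : PowerSeries.map (ev q) (PowerSeries.C (Polynomial.X ^ ((j + 1).choose 2) * γ j)) =
        PowerSeries.C (q ^ ((j + 1).choose 2) * ev q (γ j)) := by
      rw [PowerSeries.map_C, map_mul, map_pow, ev_X]
    have hP : PowerSeries.map (ev q) (PowerSeries.X ^ j * ∏ i ∈ Icc (j + 1) (n - 1 - j),
        (1 + PowerSeries.C (Polynomial.X ^ i) * PowerSeries.X)) =
        PowerSeries.X ^ j * PowerSeries.map (ev q) (∏ i ∈ Icc (j + 1) (n - 1 - j),
        (1 + PowerSeries.C (Polynomial.X ^ i) * PowerSeries.X)) := by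
      rw [map_mul, map_pow, PowerSeries.map_X]
    rw [map_mul (PowerSeries.map (ev q)) (PowerSeries.C _), hC, hP, map_prod]
    congr 2
    refine prod_congr rfl fun i _ => ?_
    rw [map_add, map_one, map_mul, PowerSeries.map_C, PowerSeries.map_X, map_pow, ev_X]
  rw [e1, e2, sum_congr rfl fun j _ => e3 j] at h2
  exact ext_real hq hq1 hk _ (fun j => q ^ ((j + 1).choose 2) * ev q (γ j)) h2

end Pool.Agent.H79.QG
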