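import Pool.Agent.H79.QG.Gam
import Pool.Agent.H53.RQ.Defs

/-!
Part (E) in the terms of `H53/RQ/Defs`.
-/

set_option autoImplicit false

open Finset

namespace Pool.Agent.H79.QG

open Pool.H56.Inv Pool.H56.InvQ

theorem ev_eq_aeval (q : ℝ) (p : Polynomial ℤ) : ev q p = Polynomial.aeval q p := by
  unfold ev
  rw [Polynomial.coe_eval₂RingHom, Polynomial.aeval_def]
  rfl

theorem Fr_eq_F (q : ℝ) (n N : ℕ) : Fr q n N = Pool.H53.RQ.F q n N := by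
  rw [← ev_Fp, ev_eq_aeval]
  rfl

theorem Cab_eq_coef (q : ℝ) (k a b : ℕ) : Cab q k a b = Pool.H53.RQ.coef q k a b := rfl

theorem partE (q : ℝ) (hq0 : 0 < q) (hq1 : q < 1) (n k : ℕ) (hn : 1 ≤ n) (hk : k ≤ (n - 1) / 2)
    (γ : ℕ → Polynomial ℤ) (hγ : Pool.H56.InvQ.invPoly n = Pool.H56.InvQ.expansion n γ) :
    q ^ ((k + 1).choose 2) * Polynomial.aeval q (γ k)
      = ∑ a ∈ range (k + 1), ∑ b ∈ range (k + 1 - a),
          Pool.H53.RQ.coef q k a b * (q ^ (b * n) * Pool.H53.RQ.F q n (k + 1 - a - b)) := by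
  rw [← ev_eq_aeval, gamma_real hq0 hq1.ne (by omega : 2 * k + 1 ≤ n) hγ]
  simp_rw [mul_sum]
  rw [sum_sigma', sum_sigma']
  refine sum_nbij' (fun x => ⟨x.2.1, x.2.2⟩)
    (fun y => ⟨(k - y.1 - y.2, y.1 + y.2), (y.1, y.2)⟩) ?_ ?_ ?_ ?_ ?_
  · rintro ⟨⟨m, s⟩, ⟨a, b⟩⟩ h
    simp only [mem_sigma, HasAntidiagonal.mem_antidiagonal, mem_range] at h ⊢
    omega
  · rintro ⟨a, b⟩ h
    simp only [mem_sigma, mem_range] at h
    simp only [mem_sigma, HasAntidiagonal.mem_antidiagonal]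
    refine ⟨?_, trivial⟩
    omega
  · rintro ⟨⟨m, s⟩, ⟨a, b⟩⟩ h
    simp only [mem_sigma, HasAntidiagonal.mem_antidiagonal] at h ⊢
    obtain ⟨h1, h2⟩ := h
    subst h2
    have : m = k - a - b := by omega
    subst this
    rfl
  · rintro ⟨a, b⟩ h
    rfl
  · rintro ⟨⟨m, s⟩, ⟨a, b⟩⟩ h
    simp only [mem_sigma, HasAntidiagonal.mem_antidiagonal] at h ⊢
    have : k + 1 - a - b = m + 1 := by omega
    rw [this, ← Fr_eq_F, Cab_eq_coef]
    ring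

end Pool.Agent.H79.QG
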