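import Pool.Agent.H79.QG.Gam

/-!
# Reduction to `0 < q < 1`

The coefficients `γ_k` are palindromic, so `γ_k(q) = q^(k(n-1-k)) γ_k(1/q)`; the value at `1` is a
limit.
-/

set_option autoImplicit false

open Finset

namespace Pool.Agent.H79.QG

open Pool.H56.Inv Pool.H56.InvQ

theorem ev_eq_sum (q : ℝ) (p : Polynomial ℤ) (N : ℕ) (h : ∀ m, N < m → p.coeff m = 0) :
    ev q p = ∑ m ∈ range (N + 1), (p.coeff m : ℝ) * q ^ m := by
  unfold ev
  rw [Polynomial.coe_eval₂RingHom]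
  have hd : p.natDegree < N + 1 := by
    rw [Nat.lt_succ_iff, Polynomial.natDegree_le_iff_coeff_eq_zero]
    exact h
  rw [Polynomial.eval₂_eq_sum_range' _ hd]
  rfl

/-- a palindromic polynomial -/
theorem ev_pal {q : ℝ} (hq : q ≠ 0) (p : Polynomial ℤ) (N : ℕ) (h : ∀ m, N < m → p.coeff m = 0)
    (h' : ∀ m, m ≤ N → p.coeff m = p.coeff (N - m)) : ev q p = q ^ N * ev q⁻¹ p := by
  rw [ev_eq_sum q p N h, ev_eq_sum q⁻¹ p N h, mul_sum, ← sum_range_reflect]
  refine sum_congr rfl fun m hm => ?_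
  rw [mem_range] at hm
  have e : N + 1 - 1 - m = N - m := by omega
  rw [e, ← h' m (by omega)]
  have e2 : q ^ N = q ^ (N - m) * q ^ m := by rw [← pow_add]; congr 1; omega
  rw [e2, inv_pow]
  have : q ^ m ≠ 0 := pow_ne_zero _ hq
  field_simp

/-- the coefficients of the expansion are determined and palindromic -/
theorem gamma_pal {n k : ℕ} (hn : 1 ≤ n) (hk : k ≤ (n - 1) / 2) {γ : ℕ → Polynomial ℤ}
    (h : invPoly n = expansion n γ) :
    (∀ m, k * (n - 1 - k) < m → (γ k).coeff m = 0) ∧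
    (∀ m, m ≤ k * (n - 1 - k) → (γ k).coeff m = (γ k).coeff (k * (n - 1 - k) - m)) := by
  obtain ⟨δ, _, hu, hδ⟩ := joint n hn
  have e := hu γ h k hk
  have h1 := hδ k hk
  rw [e]
  exact ⟨h1.2.1, h1.1⟩

theorem ev_continuous (p : Polynomial ℤ) : Continuous fun q : ℝ => ev q p := by
  have : (fun q : ℝ => ev q p) = fun q => (p.map (Int.castRingHom ℝ)).eval q := by
    funext q
    unfold ev
    rw [Polynomial.coe_eval₂RingHom, Polynomial.eval_map]
  rw [this]
  exact Polynomial.continuous _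

/-- positivity for `0 < q < 1` gives positivity for all `q > 0` -/
theorem nonneg_all {n k : ℕ} (hn : 1 ≤ n) (hk : k ≤ (n - 1) / 2) {γ : ℕ → Polynomial ℤ}
    (h : invPoly n = expansion n γ) (hp : ∀ q : ℝ, 0 < q → q < 1 → 0 ≤ ev q (γ k)) :
    ∀ q : ℝ, 0 < q → 0 ≤ ev q (γ k) := by
  intro q hq
  obtain ⟨h1, h2⟩ := gamma_pal hn hk h
  rcases lt_trichotomy q 1 with h3 | h3 | h3
  · exact hp q hq h3
  · subst h3
    have hc : Filter.Tendsto (fun x : ℝ => ev x (γ k)) (nhdsWithin 1 (Set.Iio 1))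
        (nhds (ev 1 (γ k))) := (ev_continuous (γ k)).continuousAt.tendsto.mono_left nhdsWithin_le_nhds
    refine ge_of_tendsto hc ?_
    have : Set.Ioo (0 : ℝ) 1 ∈ nhdsWithin 1 (Set.Iio 1) := Ioo_mem_nhdsLT one_pos
    filter_upwards [this] with x hx
    exact hp x hx.1 hx.2
  · rw [ev_pal hq.ne' (γ k) (k * (n - 1 - k)) h1 h2]
    refine mul_nonneg (by positivity) (hp _ (inv_pos.2 hq) (inv_lt_one_of_one_lt₀ h3))

end Pool.Agent.H79.QG
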